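import Mathlib

set_option autoImplicit false
open Matrix NormedSpace MeasureTheory Filter Topology Asymptotics
open scoped Matrix.Norms.L2Operator

namespace Pool.Agent.Results.MP_245269_an.Unbounded

abbrev M := Matrix (Fin 3) (Fin 3) ℂ

def P0 : M := diagonal ![1, 0, 1]
def D0 : M := diagonal ![0, 1, 2]
def L1 : M := !![0, 1, 0; 0, 0, 1; 0, 0, 0]

lemma expD (t : ℝ) : exp (t • D0) = diagonal ![1, (Real.exp t : ℂ), (Real.exp t : ℂ) ^ 2] := by
  rw [D0, ← diagonal_smul, exp_diagonal]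
  congr 1; funext i
  rw [Pi.coe_exp]
  fin_cases i <;> simp [← Complex.exp_eq_exp_ℂ, ← Complex.exp_nat_mul, mul_comm]

lemma expDinv (t : ℝ) : (exp (t • D0))⁻¹ =
    diagonal ![1, (Real.exp t : ℂ)⁻¹, ((Real.exp t : ℂ) ^ 2)⁻¹] := by
  refine Matrix.inv_eq_left_inv ?_
  have h : (Real.exp t : ℂ) ≠ 0 := by exact_mod_cast (Real.exp_pos t).ne'
  rw [expD, diagonal_mul_diagonal, ← diagonal_one]
  congr 1; funext i
  fin_cases i <;> simp [h]

lemma Lt (t : ℝ) : (exp (t • D0))⁻¹ * L1 * exp (t • D0) = Real.exp t • L1 := by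
  have h : (Real.exp t : ℂ) ≠ 0 := by exact_mod_cast (Real.exp_pos t).ne'
  rw [expDinv, expD]
  ext i j
  rw [mul_diagonal, diagonal_mul]
  fin_cases i <;> fin_cases j <;> simp [L1]
  field_simp

lemma prod_smul (k : ℕ) (c : Fin k → ℝ) :
    (List.ofFn fun i => c i • L1).prod = (∏ i, c i) • L1 ^ k := by
  induction k with
  | zero => simp
  | succ k ih => rw [List.ofFn_succ, List.prod_cons, ih, Fin.prod_univ_succ, pow_succ', smul_mul_smul]

lemma diag3 (a b c : ℂ) : diagonal ![a, b, c] = !![a, 0, 0; 0, b, 0; 0, 0, c] := by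
  ext i j; fin_cases i <;> fin_cases j <;> simp

lemma entry (τ l : ℝ) : exp (τ • (D0 + l • L1)) 0 2 = ((l ^ 2 * (Real.exp τ - 1) ^ 2 / 2 : ℝ) : ℂ) := by
  set S : M := !![1, l, l ^ 2 / 2; 0, 1, l; 0, 0, 1] with hS
  set S' : M := !![1, -l, l ^ 2 / 2; 0, 1, -l; 0, 0, 1] with hS'
  have h1 : S' * S = 1 := by
    ext i j; fin_cases i <;> fin_cases j <;> simp [hS, hS', Matrix.mul_apply, Fin.sum_univ_three]
    ring
  have h2 : S⁻¹ = S' := Matrix.inv_eq_left_inv h1
  have h3 : IsUnit S := (isUnit_iff_isUnit_det _).2 (Matrix.isUnit_det_of_left_inverse h1)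
  have h4 : τ • (D0 + l • L1) = S * (τ • D0) * S⁻¹ := by
    rw [h2, D0, diag3]
    ext i j
    fin_cases i <;> fin_cases j <;>
      simp [hS, hS', L1, Matrix.mul_apply, Fin.sum_univ_three] <;> ring
  rw [h4, exp_conj _ _ h3, expD, h2, diag3]
  simp [hS, hS', Matrix.mul_apply, Fin.sum_univ_three]
  ring

theorem result : ∃ P L0 L : M,
    P * P = P ∧ (∀ t : ℝ, P * exp (t • L0) = exp (t • L0) * P) ∧ P * L * P = 0 ∧
    (∀ (k : ℕ) (t : ℝ), IntegrableOn
      (fun s : Fin k → ℝ =>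
        ‖P * (List.ofFn fun i => (exp (s i • L0))⁻¹ * L * exp (s i • L0)).prod * P‖)
      {s | StrictAnti s ∧ ∀ i, s i < t}) ∧
    ∀ (n m m' : ℕ) (R G : ℕ → M) (t : ℝ), 0 < t →
      ¬ (fun l : ℝ => P * (exp ((t / l ^ 2) • L0))⁻¹ * exp ((t / l ^ 2) • (L0 + l • L)) * P -
          exp (t • ∑ j ∈ Finset.range (m' + 1), l ^ j • G j) *
            ∑ j ∈ Finset.range (m + 1), l ^ j • R j) =O[𝓝[>] 0] fun l : ℝ => l ^ (2 * n + 2) := by
  refine ⟨P0, D0, L1, ?_, ?_, ?_, ?_, ?_⟩
  · ext i j; fin_cases i <;> fin_cases j <;> simp [P0]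
  · intro t; rw [expD, P0, diagonal_mul_diagonal, diagonal_mul_diagonal]; simp [mul_comm]
  · ext i j
    rw [P0, mul_diagonal, diagonal_mul]
    fin_cases i <;> fin_cases j <;> simp [L1]
  · intro k t
    simp only [Lt, prod_smul, mul_smul_comm, smul_mul_assoc, norm_smul]
    refine Integrable.mul_const ?_ _
    have h1 : Integrable (fun s : Fin k → ℝ => ∏ i, (Set.Iio t).indicator Real.exp (s i)) :=
      Integrable.fintype_prod (f := fun _ => (Set.Iio t).indicator Real.exp) fun _ =>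
        (integrable_indicator_iff measurableSet_Iio).2 ((integrableOn_exp_Iic t).mono_set Set.Iio_subset_Iic_self)
    refine (h1.integrableOn.congr_fun ?_ ?_).norm
    · intro s hs
      exact Finset.prod_congr rfl fun i _ => Set.indicator_of_mem (s := Set.Iio t) (hs.2 i) _
    · have : {s : Fin k → ℝ | StrictAnti s ∧ ∀ i, s i < t} =
          (⋂ i, ⋂ j, {s : Fin k → ℝ | i < j → s j < s i}) ∩ ⋂ i, {s | s i < t} := by
        ext s; simp [StrictAnti]
      rw [this]
      refine MeasurableSet.inter (MeasurableSet.iInter fun i => MeasurableSet.iInter fun j => ?_)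
        (MeasurableSet.iInter fun i => measurableSet_lt (measurable_pi_apply i) measurable_const)
      by_cases h : i < j
      · simpa [h] using measurableSet_lt (measurable_pi_apply j) (measurable_pi_apply i)
      · simp [h]
  · intro n m m' R G t ht H
    let ev : M →L[ℝ] ℂ := LinearMap.toContinuousLinearMap
      { toFun := fun A => A 0 2, map_add' := fun _ _ => rfl, map_smul' := fun _ _ => rfl }
    set g : ℝ → M := fun l => exp (t • ∑ j ∈ Finset.range (m' + 1), l ^ j • G j) *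
            ∑ j ∈ Finset.range (m + 1), l ^ j • R j with hg
    letI : NormedAlgebra ℚ M := NormedAlgebra.restrictScalars ℚ ℂ M
    have gc : Continuous g := Continuous.mul (exp_continuous.comp (by fun_prop)) (by fun_prop)
    have h0 : Tendsto (fun l : ℝ => l ^ (2 * n + 2)) (𝓝[>] 0) (𝓝 0) := by
      have : Continuous fun l : ℝ => l ^ (2 * n + 2) := by fun_prop
      simpa using (this.tendsto 0).mono_left nhdsWithin_le_nhds
    have h1 := (H.trans_tendsto h0).add ((gc.tendsto 0).mono_left nhdsWithin_le_nhds)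
    have h2 := ((ev.continuous.tendsto _).comp h1).norm
    have h3 : ∀ l : ℝ, 0 < l → t ^ 2 / 2 * l⁻¹ * l⁻¹ ≤ ‖ev (P0 * (exp ((t / l ^ 2) • D0))⁻¹ *
        exp ((t / l ^ 2) • (D0 + l • L1)) * P0 - g l + g l)‖ := by
      intro l hl
      rw [sub_add_cancel]
      show _ ≤ ‖(P0 * (exp ((t / l ^ 2) • D0))⁻¹ * exp ((t / l ^ 2) • (D0 + l • L1)) * P0) 0 2‖
      rw [expDinv, P0, diagonal_mul_diagonal, mul_diagonal, diagonal_mul, entry]
      simp only [Matrix.cons_val_zero, Matrix.cons_val, one_mul, mul_one, Complex.norm_real]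
      refine le_trans ?_ (le_abs_self _)
      have h4 := Real.add_one_le_exp (t / l ^ 2)
      have h5 : (t / l ^ 2) ^ 2 ≤ (Real.exp (t / l ^ 2) - 1) ^ 2 :=
        pow_le_pow_left₀ (by positivity) (by linarith) 2
      calc t ^ 2 / 2 * l⁻¹ * l⁻¹ = l ^ 2 * (t / l ^ 2) ^ 2 / 2 := by field_simp
        _ ≤ _ := by gcongr
    have h6 : Tendsto (fun l : ℝ => t ^ 2 / 2 * l⁻¹ * l⁻¹) (𝓝[>] 0) atTop :=
      (tendsto_inv_nhdsGT_zero.const_mul_atTop (by positivity)).atTop_mul_atTop₀ tendsto_inv_nhdsGT_zero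
    refine not_tendsto_atTop_of_tendsto_nhds h2 (tendsto_atTop_mono' _ ?_ h6)
    filter_upwards [self_mem_nhdsWithin] with l hl using h3 l hl

end Pool.Agent.Results.MP_245269_an.Unbounded
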